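import Pool.Agent.H802.TVF.VR
import Pool.Agent.R632.VRC.Two

/-! Virtual fibering of trees of groups. -/

set_option linter.unusedSectionVars false
set_option linter.dupNamespace false

namespace Pool.Agent.H802.TVF

open Pool.Agent.R632.VRC

universe u

/-- virtually fibered -/
def VF (P : Type u) [Group P] : Prop :=
  ∃ (L : Subgroup P) (θ : P → ℤ) (hθ : HomOn L θ), L.FiniteIndex ∧ (∃ x ∈ L, θ x ≠ 0) ∧
    (kerOn L θ hθ).FG

/-- infinite virtually cyclic -/
def IVC (H : Type u) [Group H] : Prop :=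
  ∃ c : H, (∀ n : ℤ, c ^ n = 1 → n = 0) ∧ (Subgroup.zpowers c).FiniteIndex

section amalgam

variable {ι : Type} [Fintype ι] [DecidableEq ι] [Nonempty ι] {G : ι → Type u} [∀ i, Group (G i)]
  {H : Type u} [Group H] {φ : ∀ i, H →* G i} {Γ : Type u} [Group Γ] {o : ∀ i, G i →* Γ}

theorem vf_amalgam (hΓ : Amalg φ o) (hH : IVC H) (hφ : ∀ i, VR (φ i)) (hG : ∀ i, VF (G i)) :
    VF Γ := by
  obtain ⟨c, hinf, hc⟩ := hH
  choose K hK hφK r hr using hφ
  choose L θ hθ hL hθ0 hθfg using hG
  obtain ⟨Γ1, F, hF, h1, h2, h3⟩ := fibered_amalgam hΓ c hinf hc K hK hφK r hr L hL θ hθ hθ0 hθfg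
  exact ⟨Γ1, F, hF, h1, h2, h3⟩

end amalgam

section iso

variable {P Q : Type u} [Group P] [Group Q]

lemma VF.of_equiv (e : P ≃* Q) (h : VF P) : VF Q := by
  obtain ⟨L, θ, hθ, hL, ⟨x, hx, hx0⟩, hfg⟩ := h
  have hmem : ∀ y, y ∈ L.map e.toMonoidHom ↔ e.symm y ∈ L := by
    intro y
    constructor
    · rintro ⟨z, hz, rfl⟩
      show e.symm (e z) ∈ L
      rwa [e.symm_apply_apply]
    · intro hy
      exact ⟨e.symm y, hy, e.apply_symm_apply y⟩
  have hθ' : HomOn (L.map e.toMonoidHom) (fun y => θ (e.symm y)) := by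
    intro a ha b hb
    show θ (e.symm (a * b)) = _
    rw [map_mul]
    exact hθ _ ((hmem a).mp ha) _ ((hmem b).mp hb)
  refine ⟨L.map e.toMonoidHom, fun y => θ (e.symm y), hθ', ?_, ⟨e x, ⟨x, hx, rfl⟩, ?_⟩, ?_⟩
  · constructor
    have h1 : (Subgroup.map e.toMonoidHom L).index = L.index := Subgroup.index_map_equiv L e
    rw [h1]
    exact hL.index_ne_zero
  · show θ (e.symm (e x)) ≠ 0
    rwa [e.symm_apply_apply]
  · have h1 : kerOn (L.map e.toMonoidHom) (fun y => θ (e.symm y)) hθ' =
        (kerOn L θ hθ).map e.toMonoidHom := by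
      ext y
      constructor
      · rintro ⟨h1, h2⟩
        exact ⟨e.symm y, ⟨(hmem y).mp h1, h2⟩, e.apply_symm_apply y⟩
      · rintro ⟨z, ⟨hz, hz0⟩, rfl⟩
        refine ⟨⟨z, hz, rfl⟩, ?_⟩
        show θ (e.symm (e z)) = 0
        rwa [e.symm_apply_apply]
    rw [h1]
    exact fg_map _ hfg

lemma VR.equiv_comp {H : Type u} [Group H] {ψ : H →* P} (h : VR ψ) (e : P ≃* Q) :
    VR (e.toMonoidHom.comp ψ) := by
  obtain ⟨K, hK, hψK, r, hr⟩ := h
  refine ⟨K.map e.toMonoidHom, ?_, fun h => ⟨ψ h, hψK h, rfl⟩, ?_⟩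
  · constructor
    have h1 : (Subgroup.map e.toMonoidHom K).index = K.index := Subgroup.index_map_equiv K e
    rw [h1]
    exact hK.index_ne_zero
  · refine ⟨r.comp (K.equivMapOfInjective e.toMonoidHom e.injective).symm.toMonoidHom, ?_⟩
    intro h
    have h1 : (K.equivMapOfInjective e.toMonoidHom e.injective).symm
        ⟨e.toMonoidHom (ψ h), ⟨ψ h, hψK h, rfl⟩⟩ = ⟨ψ h, hψK h⟩ := by
      rw [MulEquiv.symm_apply_eq]
      rfl
    show r ((K.equivMapOfInjective e.toMonoidHom e.injective).symm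
        ⟨e.toMonoidHom (ψ h), ⟨ψ h, hψK h, rfl⟩⟩) = h
    rw [h1, hr]

end iso

/-- `Γ` is the fundamental group of a tree of groups -/
structure TreeAmalg {V E : Type} {s t : E → V} {G : V → Type u} [∀ v, Group (G v)]
    {B : E → Type u} [∀ e, Group (B e)] (a : ∀ e, B e →* G (s e)) (b : ∀ e, B e →* G (t e))
    {Γ : Type u} [Group Γ] (o : ∀ v, G v →* Γ) : Prop where
  comp : ∀ e h, o (s e) (a e h) = o (t e) (b e h)
  lift : ∀ (W : Type u) [Group W] (ρ : ∀ v, G v →* W),
    (∀ e h, ρ (s e) (a e h) = ρ (t e) (b e h)) → ∃ F : Γ →* W, ∀ v g, F (o v g) = ρ v g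
  gen : ∀ K : Subgroup Γ, (∀ v g, o v g ∈ K) → ∀ x, x ∈ K

section pres

variable {V E : Type} {s t : E → V} {G : V → Type u} [∀ v, Group (G v)]
  {B : E → Type u} [∀ e, Group (B e)] (a : ∀ e, B e →* G (s e)) (b : ∀ e, B e →* G (t e))

/-- the relations of the fundamental group of a tree of groups -/
def rels : Subgroup (Monoid.CoprodI G) :=
  Subgroup.normalClosure (Set.range fun p : Σ e, B e =>
    (Monoid.CoprodI.of (a p.1 p.2) : Monoid.CoprodI G) * (Monoid.CoprodI.of (b p.1 p.2))⁻¹)

instance : (rels a b).Normal := Subgroup.normalClosure_normal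

theorem tree_pres [DecidableEq V] : TreeAmalg a b
    (fun v => (QuotientGroup.mk' (rels a b)).comp (Monoid.CoprodI.of : G v →* Monoid.CoprodI G)) := by
  constructor
  · intro e h
    show QuotientGroup.mk' (rels a b) _ = QuotientGroup.mk' (rels a b) _
    rw [← mul_inv_eq_one, ← map_inv, ← map_mul]
    show _ ∈ (QuotientGroup.mk' (rels a b)).ker
    rw [QuotientGroup.ker_mk']
    exact Subgroup.subset_normalClosure ⟨⟨e, h⟩, rfl⟩
  · intro W _ ρ hρ
    have h1 : rels a b ≤ (Monoid.CoprodI.lift ρ).ker := by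
      refine Subgroup.normalClosure_le_normal ?_
      rintro _ ⟨p, rfl⟩
      show Monoid.CoprodI.lift ρ (_ * _⁻¹) = 1
      rw [map_mul, map_inv, Monoid.CoprodI.lift_of, Monoid.CoprodI.lift_of, mul_inv_eq_one]
      exact hρ p.1 p.2
    refine ⟨QuotientGroup.lift (rels a b) (Monoid.CoprodI.lift ρ) h1, fun v g => ?_⟩
    show QuotientGroup.lift (rels a b) (Monoid.CoprodI.lift ρ) h1
      (QuotientGroup.mk (Monoid.CoprodI.of g)) = _
    rw [QuotientGroup.lift_mk, Monoid.CoprodI.lift_of]
  · intro K hK x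
    obtain ⟨y, rfl⟩ := QuotientGroup.mk'_surjective (rels a b) x
    induction y using Monoid.CoprodI.induction_on with
    | one => rw [map_one]; exact K.one_mem
    | of i m => exact hK i m
    | mul x y hx hy => rw [map_mul]; exact K.mul_mem hx hy

end pres

/-- casting between the vertex groups -/
def castHom {V : Type} {G : V → Type u} [∀ v, Group (G v)] {v w : V} (h : v = w) : G v →* G w := by
  subst h
  exact MonoidHom.id _

/-- The conclusion for a tree. -/
def Good {V E : Type} (s t : E → V) : Prop :=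
  ∀ (G : V → Type u) [∀ v, Group (G v)] (B : E → Type u) [∀ e, Group (B e)]
    (a : ∀ e, B e →* G (s e)) (b : ∀ e, B e →* G (t e)) (Γ : Type u) [Group Γ]
    (o : ∀ v, G v →* Γ), TreeAmalg a b o → (∀ e, IVC (B e)) → (∀ e, VR (a e)) → (∀ e, VR (b e)) →
    (∀ v, VF (G v)) →
    VF Γ ∧ ∀ (v : V) (H' : Type u) [Group H'] (ψ : H' →* G v), IVC H' → VR ψ → VR ((o v).comp ψ)

lemma Good.swap {V E : Type} {s t : E → V} (h : Good.{u} s t) : Good.{u} t s := by
  intro G _ B _ a b Γ _ o hΓ hB ha hb hG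
  refine h G B b a Γ o ⟨fun e h => (hΓ.comp e h).symm, fun W _ ρ hρ => ?_, hΓ.gen⟩ hB hb ha hG
  exact hΓ.lift W ρ fun e h => (hρ e h).symm

lemma good_one {V E : Type} [hE : IsEmpty E] [hV : Subsingleton V] [hne : Nonempty V]
    (s t : E → V) : Good.{u} s t := by
  intro G _ B _ a b Γ _ o hΓ hB ha hb hG
  obtain ⟨v0⟩ := hne
  obtain ⟨F, hF⟩ := hΓ.lift (G v0) (fun v => castHom (Subsingleton.elim v v0))
    (fun e => hE.elim e)
  have hF0 : ∀ g, F (o v0 g) = g := fun g => hF v0 g
  have hsurj : Function.Surjective (o v0) := by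
    intro x
    have := hΓ.gen (o v0).range (fun v g => by
      have hv : v = v0 := Subsingleton.elim _ _
      subst hv
      exact ⟨g, rfl⟩) x
    exact this
  have hinj : Function.Injective (o v0) := fun x y hxy => by rw [← hF0 x, hxy, hF0]
  let e : G v0 ≃* Γ := MulEquiv.ofBijective (o v0) ⟨hinj, hsurj⟩
  refine ⟨(hG v0).of_equiv e, fun v H' _ ψ hH' hψ => ?_⟩
  have hv : v = v0 := Subsingleton.elim _ _
  subst hv
  exact hψ.equiv_comp e

section step

variable {V E : Type} {s t : E → V} (e0 : E) (h2 : ∀ e, e ≠ e0 → s e ≠ s e0 ∧ t e ≠ s e0)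

/-- the source map of the smaller tree -/
def s' : {e : E // e ≠ e0} → {v : V // v ≠ s e0} := fun e => ⟨s e.1, (h2 e.1 e.2).1⟩

/-- the target map of the smaller tree -/
def t' : {e : E // e ≠ e0} → {v : V // v ≠ s e0} := fun e => ⟨t e.1, (h2 e.1 e.2).2⟩

theorem good_step [DecidableEq V] [DecidableEq E] (h1 : t e0 ≠ s e0)
    (hgood : Good.{u} (s' e0 h2) (t' e0 h2)) : Good.{u} s t := by
  intro G _ B _ a b Γ _ o hΓ hB ha hb hG
  -- the smaller tree
  let G' : {v : V // v ≠ s e0} → Type u := fun v => G v.1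
  let B' : {e : E // e ≠ e0} → Type u := fun e => B e.1
  let a' : ∀ e, B' e →* G' (s' e0 h2 e) := fun e => a e.1
  let b' : ∀ e, B' e →* G' (t' e0 h2 e) := fun e => b e.1
  let Γ' : Type u := Monoid.CoprodI G' ⧸ rels a' b'
  let o' : ∀ v, G' v →* Γ' := fun v =>
    (QuotientGroup.mk' (rels a' b')).comp (Monoid.CoprodI.of : G' v →* Monoid.CoprodI G')
  have hΓ' : TreeAmalg a' b' o' := tree_pres a' b'
  obtain ⟨hVF', hVR'⟩ := hgood G' B' a' b' Γ' o' hΓ' (fun e => hB e.1) (fun e => ha e.1)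
    (fun e => hb e.1) (fun v => hG v.1)
  obtain ⟨π, hπ⟩ := hΓ'.lift Γ (fun v => o v.1) (fun e h => hΓ.comp e.1 h)
  -- the amalgam
  let φ1 : B e0 →* Γ' := (o' ⟨t e0, h1⟩).comp (b e0)
  have hA : Amalg (famHom φ1 (a e0)) (famOut π (o (s e0))) := by
    have hij : ∀ h, π (φ1 h) = o (s e0) (a e0 h) := by
      intro h
      show π (o' ⟨t e0, h1⟩ (b e0 h)) = _
      rw [hπ]
      exact (hΓ.comp e0 h).symm
    constructor
    · intro k l h
      rcases k with _ | _ <;> rcases l with _ | _
      · rfl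
      · exact (hij h).symm
      · exact hij h
      · rfl
    · intro W _ ρ hρ
      let f : Γ' →* W := ρ true
      let g : G (s e0) →* W := ρ false
      have hfg : ∀ h, f (φ1 h) = g (a e0 h) := fun h => hρ true false h
      let ρV : ∀ v, G v →* W := fun v =>
        if h : v = s e0 then g.comp (castHom h) else f.comp (o' ⟨v, h⟩)
      have hρ0 : ∀ x, ρV (s e0) x = g x := by
        intro x
        show (if h : s e0 = s e0 then g.comp (castHom h) else f.comp (o' ⟨s e0, h⟩)) x = g x
        rw [dif_pos rfl]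
        rfl
      have hρ1 : ∀ (v : V) (h : v ≠ s e0) x, ρV v x = f (o' ⟨v, h⟩ x) := by
        intro v h x
        show (if h : v = s e0 then g.comp (castHom h) else f.comp (o' ⟨v, h⟩)) x = _
        rw [dif_neg h]
        rfl
      obtain ⟨F, hF⟩ := hΓ.lift W ρV (by
        intro e h
        by_cases he : e = e0
        · subst he
          rw [hρ0, hρ1 _ h1]
          exact (hfg h).symm
        · rw [hρ1 _ (h2 e he).1, hρ1 _ (h2 e he).2]
          congr 1
          exact hΓ'.comp ⟨e, he⟩ h)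
      refine ⟨F, ?_⟩
      rintro (_ | _) x
      · exact (hF (s e0) x).trans (hρ0 x)
      · show F (π x) = f x
        let K : Subgroup Γ' := (F.comp π).eqLocus f
        refine hΓ'.gen K (fun v y => ?_) x
        show F (π (o' v y)) = f (o' v y)
        rw [hπ, hF, hρ1 v.1 v.2]
    · intro x
      let K : Subgroup Γ :=
        { carrier := {x | ∃ L : List (Σ k, Fam Γ' (G (s e0)) k),
            x = (L.map (fun p => famOut π (o (s e0)) p.1 p.2)).prod}
          mul_mem' := by
            rintro x y ⟨L, rfl⟩ ⟨L', rfl⟩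
            exact ⟨L ++ L', by rw [List.map_append, List.prod_append]⟩
          one_mem' := ⟨[], rfl⟩
          inv_mem' := by
            rintro x ⟨L, rfl⟩
            induction L with
            | nil => exact ⟨[], by simp⟩
            | cons p L ih =>
              obtain ⟨L', hL'⟩ := ih
              refine ⟨L' ++ [⟨p.1, p.2⁻¹⟩], ?_⟩
              rw [List.map_append, List.prod_append, ← hL', List.map_cons, List.prod_cons,
                mul_inv_rev, List.map_cons, List.map_nil, List.prod_singleton]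
              simp only [map_inv] }
      refine hΓ.gen K (fun v y => ?_) x
      by_cases hv : v = s e0
      · subst hv
        exact ⟨[⟨false, y⟩], by
          rw [List.map_cons, List.map_nil, List.prod_singleton]
          rfl⟩
      · exact ⟨[⟨true, o' ⟨v, hv⟩ y⟩], by
          rw [List.map_cons, List.map_nil, List.prod_singleton]
          exact (hπ ⟨v, hv⟩ y).symm⟩
  have hφ : ∀ i, VR (famHom φ1 (a e0) i) := by
    rintro (_ | _)
    · exact ha e0
    · exact hVR' ⟨t e0, h1⟩ (B e0) (b e0) (hB e0) (hb e0)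
  have hGi : ∀ i, VF (Fam Γ' (G (s e0)) i) := by
    rintro (_ | _)
    · exact hG _
    · exact hVF'
  refine ⟨vf_amalgam hA (hB e0) hφ hGi, fun v H' _ ψ hH' hψ => ?_⟩
  obtain ⟨c, hinf, hc⟩ := hB e0
  obtain ⟨c', hinf', hc'⟩ := hH'
  by_cases hv : v = s e0
  · subst hv
    exact vr_amalgam hA c hinf hc hφ false ψ c' hinf' hc' hψ
  · have h3 := vr_amalgam hA c hinf hc hφ true ((o' ⟨v, hv⟩).comp ψ) c' hinf' hc'
      (hVR' ⟨v, hv⟩ H' ψ ⟨c', hinf', hc'⟩ hψ)
    have h4 : (famOut π (o (s e0)) true).comp ((o' ⟨v, hv⟩).comp ψ) = (o v).comp ψ := by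
      ext x
      exact hπ ⟨v, hv⟩ (ψ x)
    rwa [h4] at h3

end step

/-- finite trees -/
structure TreeOn {V E : Type} [Fintype V] [Fintype E] (s t : E → V) : Prop where
  ne : Nonempty V
  conn : ∀ v w, Relation.EqvGen (fun x y => ∃ e, s e = x ∧ t e = y) v w
  card : Fintype.card V = Fintype.card E + 1

section leaf

variable {V E : Type} [Fintype V] [Fintype E] [DecidableEq V] [DecidableEq E] {s t : E → V}

lemma exists_leaf (h : TreeOn s t) (hV : 1 < Fintype.card V) : ∃ (w : V) (e0 : E),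
    (s e0 = w ∧ t e0 ≠ w ∨ t e0 = w ∧ s e0 ≠ w) ∧ ∀ e, e ≠ e0 → s e ≠ w ∧ t e ≠ w := by
  classical
  let A : V → Finset E := fun v => Finset.univ.filter (fun e => s e = v)
  let C : V → Finset E := fun v => Finset.univ.filter (fun e => t e = v)
  have hA : ∑ v, (A v).card = Fintype.card E :=
    (Finset.card_eq_sum_card_fiberwise (f := s) (s := Finset.univ) (t := Finset.univ)
      (fun _ _ => Finset.mem_univ _)).symm
  have hC : ∑ v, (C v).card = Fintype.card E :=
    (Finset.card_eq_sum_card_fiberwise (f := t) (s := Finset.univ) (t := Finset.univ)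
      (fun _ _ => Finset.mem_univ _)).symm
  obtain ⟨w, hw⟩ : ∃ w, (A w).card + (C w).card ≤ 1 := by
    by_contra hcon
    push Not at hcon
    have h1 : ∑ v : V, 2 ≤ ∑ v, ((A v).card + (C v).card) :=
      Finset.sum_le_sum fun v _ => hcon v
    rw [Finset.sum_add_distrib, hA, hC, Finset.sum_const, Finset.card_univ, h.card, smul_eq_mul] at h1
    omega
  have hAmem : ∀ e, s e = w → e ∈ A w := fun e he => Finset.mem_filter.mpr ⟨Finset.mem_univ _, he⟩
  have hCmem : ∀ e, t e = w → e ∈ C w := fun e he => Finset.mem_filter.mpr ⟨Finset.mem_univ _, he⟩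
  have h0 : ∃ e, s e = w ∨ t e = w := by
    by_contra hcon
    push Not at hcon
    obtain ⟨v, hv⟩ := Fintype.exists_ne_of_one_lt_card hV w
    have h1 : ∀ x y, Relation.EqvGen (fun x y => ∃ e, s e = x ∧ t e = y) x y → (x = w ↔ y = w) := by
      intro x y hxy
      induction hxy with
      | rel x y hxy =>
        obtain ⟨e, he1, he2⟩ := hxy
        have := hcon e
        rw [he1, he2] at this
        exact ⟨fun h => absurd h this.1, fun h => absurd h this.2⟩
      | refl x => exact Iff.rfl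
      | symm x y _ ih => exact ih.symm
      | trans x y z _ _ ih1 ih2 => exact ih1.trans ih2
    exact hv ((h1 w v (h.conn w v)).mp rfl)
  obtain ⟨e0, he0⟩ := h0
  rcases he0 with he0 | he0
  · have h1 : 0 < (A w).card := Finset.card_pos.mpr ⟨e0, hAmem e0 he0⟩
    have h2 : (C w).card = 0 := by omega
    have h3 : (A w).card ≤ 1 := by omega
    rw [Finset.card_eq_zero] at h2
    have h4 : ∀ e, t e ≠ w := fun e he => by
      have := hCmem e he
      rw [h2] at this
      exact absurd this (Finset.notMem_empty _)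
    exact ⟨w, e0, Or.inl ⟨he0, h4 e0⟩, fun e he => ⟨fun hs => he
      (Finset.card_le_one.mp h3 e (hAmem e hs) e0 (hAmem e0 he0)), h4 e⟩⟩
  · have h1 : 0 < (C w).card := Finset.card_pos.mpr ⟨e0, hCmem e0 he0⟩
    have h2 : (A w).card = 0 := by omega
    have h3 : (C w).card ≤ 1 := by omega
    rw [Finset.card_eq_zero] at h2
    have h4 : ∀ e, s e ≠ w := fun e he => by
      have := hAmem e he
      rw [h2] at this
      exact absurd this (Finset.notMem_empty _)
    exact ⟨w, e0, Or.inr ⟨he0, h4 e0⟩, fun e he => ⟨h4 e, fun hs => he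
      (Finset.card_le_one.mp h3 e (hCmem e hs) e0 (hCmem e0 he0))⟩⟩

lemma TreeOn.swap (h : TreeOn s t) : TreeOn t s := by
  refine ⟨h.ne, fun v w => ?_, h.card⟩
  have h1 := h.conn v w
  induction h1 with
  | rel x y hxy =>
    obtain ⟨e, he1, he2⟩ := hxy
    exact (Relation.EqvGen.rel _ _ ⟨e, he2, he1⟩).symm
  | refl x => exact Relation.EqvGen.refl _
  | symm x y _ ih => exact ih.symm
  | trans x y z _ _ ih1 ih2 => exact ih1.trans _ _ _ ih2

lemma TreeOn.step (h : TreeOn s t) (e0 : E) (h2 : ∀ e, e ≠ e0 → s e ≠ s e0 ∧ t e ≠ s e0)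
    (h1 : t e0 ≠ s e0) : TreeOn (s' e0 h2) (t' e0 h2) := by
  refine ⟨⟨⟨t e0, h1⟩⟩, fun v w => ?_, ?_⟩
  · let col : V → {v : V // v ≠ s e0} := fun v => if hv : v = s e0 then ⟨t e0, h1⟩ else ⟨v, hv⟩
    have hcol0 : col (s e0) = ⟨t e0, h1⟩ := dif_pos rfl
    have hcol1 : ∀ v (hv : v ≠ s e0), col v = ⟨v, hv⟩ := fun v hv => dif_neg hv
    have key : ∀ x y, Relation.EqvGen (fun x y => ∃ e, s e = x ∧ t e = y) x y →
        Relation.EqvGen (fun x y => ∃ e, s' e0 h2 e = x ∧ t' e0 h2 e = y) (col x) (col y) := by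
      intro x y hxy
      induction hxy with
      | rel x y hxy =>
        obtain ⟨e, rfl, rfl⟩ := hxy
        by_cases he : e = e0
        · subst he
          rw [hcol0, hcol1 _ h1]
          exact Relation.EqvGen.refl _
        · rw [hcol1 _ (h2 e he).1, hcol1 _ (h2 e he).2]
          exact Relation.EqvGen.rel _ _ ⟨⟨e, he⟩, rfl, rfl⟩
      | refl x => exact Relation.EqvGen.refl _
      | symm x y _ ih => exact ih.symm
      | trans x y z _ _ ih1 ih2 => exact ih1.trans _ _ _ ih2
    have h3 := key v w (h.conn v w)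
    rwa [hcol1 _ v.2, hcol1 _ w.2] at h3
  · have h3 := h.card
    have h4 : Fintype.card {v : V // v ≠ s e0} = Fintype.card V - 1 := by
      rw [Fintype.card_subtype_compl, Fintype.card_subtype_eq]
    have h5 : Fintype.card {e : E // e ≠ e0} = Fintype.card E - 1 := by
      rw [Fintype.card_subtype_compl, Fintype.card_subtype_eq]
    have h6 : 0 < Fintype.card E := Fintype.card_pos_iff.mpr ⟨e0⟩
    rw [h4, h5]
    omega

end leaf

theorem tree_good (n : ℕ) : ∀ {V E : Type} [Fintype V] [Fintype E] (s t : E → V), TreeOn s t →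
    Fintype.card V = n → Good.{u} s t := by
  classical
  induction n with
  | zero =>
    intro V E _ _ s t h hn
    have := h.ne
    exact absurd hn Fintype.card_ne_zero
  | succ n ih =>
    intro V E _ _ s t h hn
    by_cases h1 : 1 < Fintype.card V
    · have key : ∀ {s t : E → V}, TreeOn s t → ∀ e0, t e0 ≠ s e0 →
          (∀ e, e ≠ e0 → s e ≠ s e0 ∧ t e ≠ s e0) → Good.{u} s t := by
        intro s t h e0 h3 h2
        refine good_step e0 h2 h3 (ih _ _ (h.step e0 h2 h3) ?_)
        rw [Fintype.card_subtype_compl, Fintype.card_subtype_eq, hn]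
        rfl
      obtain ⟨w, e0, h2, h3⟩ := exists_leaf h h1
      rcases h2 with ⟨rfl, h2⟩ | ⟨rfl, h2⟩
      · exact key h e0 h2 h3
      · exact (key h.swap e0 h2 fun e he => (h3 e he).symm).swap
    · have hne := h.ne
      have hc := h.card
      have h3 : 0 < Fintype.card V := Fintype.card_pos
      have h4 : Fintype.card E = 0 := by omega
      have h5 : IsEmpty E := Fintype.card_eq_zero_iff.mp h4
      have h6 : Subsingleton V := Fintype.card_le_one_iff_subsingleton.mp (by omega)
      exact good_one s t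

end Pool.Agent.H802.TVF
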