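import Pool.Agent.R632.VRC.Fib3

/-! Virtual retracts of factors of amalgams. -/

set_option linter.unusedSectionVars false
set_option linter.dupNamespace false

namespace Pool.Agent.H802.TVF

open Pool.Agent.R632.VRC

universe u

/-- `φ` is injective and its image is a virtual retract. -/
def VR {H P : Type u} [Group H] [Group P] (φ : H →* P) : Prop :=
  ∃ K : Subgroup P, K.FiniteIndex ∧ ∃ hφK : ∀ h, φ h ∈ K, ∃ r : K →* H, ∀ h, r ⟨φ h, hφK h⟩ = h

/-- the elements of a subgroup on which a homomorphism to the integers is divisible by a nonzero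
integer contain a subgroup of finite index -/
lemma fi_dvd {P : Type u} [Group P] (A : Subgroup P) (hAf : A.FiniteIndex) (f : P → ℤ)
    (hf : HomOn A f) (M : ℤ) (hM0 : M ≠ 0) :
    ∃ B : Subgroup P, B.FiniteIndex ∧ ∀ x ∈ B, x ∈ A ∧ M ∣ f x := by
  let θ : A →* Multiplicative (ZMod M.natAbs) :=
    { toFun := fun x => Multiplicative.ofAdd ((f x : ℤ) : ZMod M.natAbs)
      map_one' := by
        show Multiplicative.ofAdd ((f 1 : ℤ) : ZMod M.natAbs) = 1
        rw [hf.one]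
        simp
      map_mul' := fun x y => by
        show Multiplicative.ofAdd ((f (x * y) : ℤ) : ZMod M.natAbs) = _
        rw [hf x x.2 y y.2]
        push_cast
        rfl }
  have hne : NeZero M.natAbs := ⟨Int.natAbs_ne_zero.mpr hM0⟩
  have hfin : Finite (Multiplicative (ZMod M.natAbs)) := inferInstanceAs (Finite (ZMod M.natAbs))
  have h2 : (θ.ker).FiniteIndex := inferInstance
  refine ⟨θ.ker.map A.subtype, ?_, ?_⟩
  · constructor
    rw [Subgroup.index_map_subtype]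
    exact mul_ne_zero h2.index_ne_zero hAf.index_ne_zero
  · rintro _ ⟨x, hx, rfl⟩
    refine ⟨x.2, ?_⟩
    have h4 : ((f x : ℤ) : ZMod M.natAbs) = 0 := hx
    rw [ZMod.intCast_zmod_eq_zero_iff_dvd, Int.natAbs_dvd] at h4
    exact h4

/-- A criterion for being a virtual retract. -/
theorem vr_criterion {H P : Type u} [Group H] [Group P] (ψ : H →* P) (c : H)
    (hinf : ∀ n : ℤ, c ^ n = 1 → n = 0) (N : Subgroup P) (hN : N.Normal) (hNf : N.FiniteIndex)
    (hNc : ∀ h, ψ h ∈ N → h ∈ Subgroup.zpowers c) (F : P → ℤ) (hF : HomOn N F)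
    (n0 : ℤ) (hn0 : ψ (c ^ n0) ∈ N) (hF0 : F (ψ (c ^ n0)) ≠ 0) : VR ψ := by
  classical
  -- the generator of the trace
  let V : AddSubgroup ℤ :=
    { carrier := {n | ψ (c ^ n) ∈ N}
      add_mem' := fun {a b} ha hb => by
        show ψ (c ^ (a + b)) ∈ N
        rw [zpow_add, map_mul]
        exact N.mul_mem ha hb
      zero_mem' := by
        show ψ (c ^ (0 : ℤ)) ∈ N
        rw [zpow_zero, map_one]
        exact N.one_mem
      neg_mem' := fun {a} ha => by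
        show ψ (c ^ (-a)) ∈ N
        rw [zpow_neg, map_inv]
        exact N.inv_mem ha }
  obtain ⟨k, hk⟩ := Int.subgroup_cyclic V
  have hmem : ∀ n : ℤ, ψ (c ^ n) ∈ N ↔ ∃ q : ℤ, n = k * q := by
    intro n
    have h4 : ψ (c ^ n) ∈ N ↔ n ∈ V := Iff.rfl
    rw [h4, hk, AddSubgroup.mem_closure_singleton]
    constructor
    · rintro ⟨q, hq⟩
      exact ⟨q, by rw [← hq, smul_eq_mul, mul_comm]⟩
    · rintro ⟨q, hq⟩
      exact ⟨q, by rw [hq, smul_eq_mul, mul_comm]⟩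
  have hk0 : k ≠ 0 := by
    rintro rfl
    obtain ⟨q, hq⟩ := (hmem n0).mp hn0
    rw [zero_mul] at hq
    rw [hq, zpow_zero, map_one, hF.one] at hF0
    exact hF0 rfl
  set c0 : H := c ^ k with hc0
  have hc0inf : ∀ n : ℤ, c0 ^ n = 1 → n = 0 := by
    intro n hn
    rw [hc0, ← zpow_mul] at hn
    exact (mul_eq_zero.mp (hinf _ hn)).resolve_left hk0
  have hc0inj : ∀ a b : ℤ, c0 ^ a = c0 ^ b → a = b := by
    intro a b h
    have : c0 ^ (a - b) = 1 := by rw [zpow_sub, h, mul_inv_cancel]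
    have := hc0inf _ this
    omega
  have hC : ∀ h, ψ h ∈ N ↔ ∃ n : ℤ, h = c0 ^ n := by
    intro h
    constructor
    · intro hh
      obtain ⟨n, hn⟩ := hNc h hh
      have hn' : c ^ n = h := hn
      rw [← hn'] at hh
      obtain ⟨q, hq⟩ := (hmem n).mp hh
      exact ⟨q, by rw [← hn', hq, zpow_mul]⟩
    · rintro ⟨n, rfl⟩
      rw [hc0, ← zpow_mul]
      exact (hmem _).mpr ⟨n, rfl⟩
  have hc0N : ψ c0 ∈ N := (hC _).mpr ⟨1, (zpow_one _).symm⟩
  set D : ℤ := F (ψ c0) with hD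
  have hD0 : D ≠ 0 := by
    intro h0
    apply hF0
    obtain ⟨q, hq⟩ := (hmem n0).mp hn0
    rw [hq, zpow_mul, map_zpow, hF.zpow hc0N]
    show q * D = 0
    rw [h0, mul_zero]
  -- the exponents
  have he : ∀ h : H, ∃ e : ℤ, h⁻¹ * c0 * h = c0 ^ e := by
    intro h
    rw [← hC]
    rw [map_mul, map_mul, map_inv]
    have := hN.conj_mem _ hc0N (ψ h)⁻¹
    rwa [inv_inv] at this
  choose e he using he
  have hemul : ∀ h h', e (h * h') = e h * e h' := by
    intro h h'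
    apply hc0inj
    rw [← he, zpow_mul]
    have h1 : (h * h')⁻¹ * c0 * (h * h') = h'⁻¹ * (h⁻¹ * c0 * h) * h' := by group
    rw [h1, he]
    have h2 : h'⁻¹ * c0 ^ e h * h' = (h'⁻¹ * c0 * h') ^ e h := by
      have h3 := conj_zpow (a := h'⁻¹) (b := c0) (i := e h)
      rw [inv_inv] at h3
      exact h3.symm
    rw [h2, he, ← zpow_mul c0, ← zpow_mul c0, mul_comm]
  have he1 : e 1 = 1 := by
    apply hc0inj
    rw [← he, zpow_one]
    group
  have hesq : ∀ h, e h * e h = 1 := by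
    intro h
    have h1 : e h * e h⁻¹ = 1 := by rw [← hemul, mul_inv_cancel, he1]
    rcases Int.eq_one_or_neg_one_of_mul_eq_one h1 with h2 | h2 <;> rw [h2] <;> norm_num
  have hec : ∀ n : ℤ, e (c0 ^ n) = 1 := by
    intro n
    apply hc0inj
    rw [← he, zpow_one]
    group
  -- the quotient
  let C : Subgroup H := N.comap ψ
  have hCn : C.Normal := hN.comap ψ
  have hCc : ∀ h, h ∈ C ↔ ∃ n : ℤ, h = c0 ^ n := hC
  have hCf : C.FiniteIndex := by
    constructor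
    show (N.comap ψ).index ≠ 0
    rw [Subgroup.index_comap]
    intro h0
    have h4 := Subgroup.relIndex_dvd_index_of_normal N ψ.range
    rw [h0] at h4
    exact hNf.index_ne_zero (Nat.eq_zero_of_zero_dvd h4)
  have hfin : Finite (H ⧸ C) := Subgroup.finite_quotient_of_finiteIndex
  have hfint : Fintype (H ⧸ C) := Fintype.ofFinite _
  let T : H → P → ℤ := fun h x => e h * F ((ψ h)⁻¹ * x * ψ h)
  have hconjN : ∀ (h : H) (x : P), x ∈ N → (ψ h)⁻¹ * x * ψ h ∈ N := by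
    intro h x hx
    have := hN.conj_mem _ hx (ψ h)⁻¹
    rwa [inv_inv] at this
  have hT : ∀ (h h' : H) (x : P), x ∈ N → h⁻¹ * h' ∈ C → T h' x = T h x := by
    intro h h' x hx hh
    obtain ⟨n, hn⟩ := (hCc _).mp hh
    have h1 : h' = h * c0 ^ n := by rw [← hn]; group
    have h2 : e h' = e h := by rw [h1, hemul, hec, mul_one]
    show e h' * F ((ψ h')⁻¹ * x * ψ h') = e h * F ((ψ h)⁻¹ * x * ψ h)
    rw [h2]
    congr 1
    have h3 : (ψ h')⁻¹ * x * ψ h' = (ψ (c0 ^ n))⁻¹ * ((ψ h)⁻¹ * x * ψ h) * ((ψ (c0 ^ n))⁻¹)⁻¹ := by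
      rw [h1, map_mul]
      group
    rw [h3, hF.conj (N.inv_mem ((hC _).mpr ⟨n, rfl⟩)) (hconjN h x hx)]
  let F' : P → ℤ := fun x => ∑ q : H ⧸ C, T (Quotient.out q) x
  have hF' : HomOn N F' := by
    intro x hx y hy
    show ∑ q : H ⧸ C, T (Quotient.out q) (x * y) = _
    rw [← Finset.sum_add_distrib]
    refine Finset.sum_congr rfl fun q _ => ?_
    show e _ * F _ = e _ * F _ + e _ * F _
    have h1 : (ψ (Quotient.out q))⁻¹ * (x * y) * ψ (Quotient.out q) =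
      ((ψ (Quotient.out q))⁻¹ * x * ψ (Quotient.out q)) *
        ((ψ (Quotient.out q))⁻¹ * y * ψ (Quotient.out q)) := by group
    rw [h1, hF _ (hconjN _ x hx) _ (hconjN _ y hy), mul_add]
  have hF'eq : ∀ (h : H) (x : P), x ∈ N → F' (ψ h * x * (ψ h)⁻¹) = e h * F' x := by
    intro h x hx
    show ∑ q : H ⧸ C, T (Quotient.out q) (ψ h * x * (ψ h)⁻¹) = e h * ∑ q : H ⧸ C, T (Quotient.out q) x
    rw [Finset.mul_sum]
    refine Fintype.sum_equiv (MulAction.toPerm (h⁻¹ : H)) _ _ fun q => ?_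
    have h1 : T (Quotient.out q) (ψ h * x * (ψ h)⁻¹) = e h * T (h⁻¹ * Quotient.out q) x := by
      show e (Quotient.out q) * F _ = e h * (e (h⁻¹ * Quotient.out q) * F _)
      have h2 : e (Quotient.out q) = e h * e (h⁻¹ * Quotient.out q) := by
        rw [← hemul, mul_inv_cancel_left]
      rw [h2, mul_assoc]
      congr 3
      rw [map_mul, map_inv]
      group
    rw [h1]
    congr 1
    symm
    apply hT _ _ x hx
    rw [← QuotientGroup.eq]
    show _ = (QuotientGroup.mk (Quotient.out (h⁻¹ • q)) : H ⧸ C)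
    rw [QuotientGroup.out_eq']
    conv_rhs => rw [← QuotientGroup.out_eq' q]
    rfl
  have hF'c : F' (ψ c0) = Fintype.card (H ⧸ C) * D := by
    show ∑ q : H ⧸ C, T (Quotient.out q) (ψ c0) = _
    have h1 : ∀ q : H ⧸ C, T (Quotient.out q) (ψ c0) = D := by
      intro q
      show e (Quotient.out q) * F ((ψ (Quotient.out q))⁻¹ * ψ c0 * ψ (Quotient.out q)) = D
      have h2 : (ψ (Quotient.out q))⁻¹ * ψ c0 * ψ (Quotient.out q) =
          (ψ c0) ^ (e (Quotient.out q)) := by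
        rw [← map_inv, ← map_mul, ← map_mul, he, map_zpow]
      rw [h2, hF.zpow hc0N, ← mul_assoc, hesq, one_mul]
    rw [Finset.sum_congr rfl fun q _ => h1 q, Finset.sum_const, Finset.card_univ, nsmul_eq_mul]
  set D' : ℤ := F' (ψ c0) with hD'
  have hD'0 : D' ≠ 0 := by
    rw [hF'c]
    refine mul_ne_zero ?_ hD0
    have : Nonempty (H ⧸ C) := ⟨QuotientGroup.mk 1⟩
    exact_mod_cast Fintype.card_ne_zero
  have hF'z : ∀ n : ℤ, F' (ψ (c0 ^ n)) = n * D' := by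
    intro n
    rw [map_zpow, hF'.zpow hc0N]
  -- the subgroup
  let K : Subgroup P :=
    { carrier := {x | ∃ h : H, ∃ y ∈ N, F' y = 0 ∧ x = ψ h * y}
      mul_mem' := by
        rintro _ _ ⟨h, y, hy, hy0, rfl⟩ ⟨h', y', hy', hy0', rfl⟩
        have h1 := hconjN h' y hy
        refine ⟨h * h', (ψ h')⁻¹ * y * ψ h' * y', N.mul_mem h1 hy', ?_, ?_⟩
        · rw [hF' _ h1 _ hy', hy0', add_zero]
          have h2 := hF'eq h'⁻¹ y hy
          rw [map_inv, inv_inv] at h2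
          rw [h2, hy0, mul_zero]
        · rw [map_mul]
          group
      one_mem' := ⟨1, 1, N.one_mem, hF'.one, by rw [map_one, mul_one]⟩
      inv_mem' := by
        rintro _ ⟨h, y, hy, hy0, rfl⟩
        refine ⟨h⁻¹, ψ h * y⁻¹ * (ψ h)⁻¹, hN.conj_mem _ (N.inv_mem hy) _, ?_, ?_⟩
        · rw [hF'eq _ _ (N.inv_mem hy), hF'.inv hy, hy0]
          simp
        · rw [map_inv]
          group }
  have hψK : ∀ h, ψ h ∈ K := fun h => ⟨h, 1, N.one_mem, hF'.one, by rw [mul_one]⟩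
  have hKf : K.FiniteIndex := by
    obtain ⟨B, hB, hB'⟩ := fi_dvd N hNf F' hF' D' hD'0
    refine Subgroup.finiteIndex_of_le (H := B) ?_
    intro x hx
    obtain ⟨hxN, q, hq⟩ := hB' x hx
    have h1 : ψ (c0 ^ (-q)) ∈ N := (hC _).mpr ⟨_, rfl⟩
    refine ⟨c0 ^ q, ψ (c0 ^ (-q)) * x, N.mul_mem h1 hxN, ?_, ?_⟩
    · rw [hF' _ h1 _ hxN, hF'z, hq]
      ring
    · rw [← mul_assoc, ← map_mul, ← zpow_add, add_neg_cancel, zpow_zero, map_one, one_mul]
  have huniq : ∀ (h h' : H) (y y' : P), y ∈ N → y' ∈ N → F' y = 0 → F' y' = 0 →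
      ψ h * y = ψ h' * y' → h = h' := by
    intro h h' y y' hy hy' hy0 hy0' heq
    have h1 : ψ (h'⁻¹ * h) = y' * y⁻¹ := by
      rw [map_mul, map_inv, inv_mul_eq_iff_eq_mul, ← mul_assoc, ← heq, mul_inv_cancel_right]
    have h2 : ψ (h'⁻¹ * h) ∈ N := by
      rw [h1]
      exact N.mul_mem hy' (N.inv_mem hy)
    obtain ⟨n, hn⟩ := (hC _).mp h2
    have h3 : F' (ψ (h'⁻¹ * h)) = 0 := by
      rw [h1, hF' _ hy' _ (N.inv_mem hy), hF'.inv hy, hy0, hy0']
      rfl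
    rw [hn, hF'z] at h3
    have h4 : n = 0 := (mul_eq_zero.mp h3).resolve_right hD'0
    rw [h4, zpow_zero] at hn
    exact (inv_mul_eq_one.mp hn).symm
  refine ⟨K, hKf, hψK, ?_⟩
  have hch : ∀ x : K, ∃ h : H, ∃ y ∈ N, F' y = 0 ∧ (x : P) = ψ h * y := fun x => x.2
  choose rr yy hyN hy0 hxy using hch
  refine ⟨MonoidHom.mk' rr ?_, ?_⟩
  · intro x x'
    have h1 := hconjN (rr x') (yy x) (hyN x)
    refine huniq _ _ (yy (x * x')) ((ψ (rr x'))⁻¹ * yy x * ψ (rr x') * yy x') (hyN _)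
      (N.mul_mem h1 (hyN x')) (hy0 _) ?_ ?_
    · rw [hF' _ h1 _ (hyN x'), hy0 x', add_zero]
      have h2 := hF'eq (rr x')⁻¹ (yy x) (hyN x)
      rw [map_inv, inv_inv] at h2
      rw [h2, hy0, mul_zero]
    · rw [← hxy (x * x')]
      show (x : P) * (x' : P) = _
      rw [hxy x, hxy x', map_mul]
      group
  · intro h
    refine huniq _ _ (yy ⟨ψ h, hψK h⟩) 1 (hyN _) N.one_mem (hy0 _) hF'.one ?_
    exact ((hxy ⟨ψ h, hψK h⟩).symm).trans (mul_one _).symm

variable {ι : Type} [Fintype ι] [DecidableEq ι] [Nonempty ι] {G : ι → Type u} [∀ i, Group (G i)]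
  {H : Type u} [Group H] {φ : ∀ i, H →* G i} {Γ : Type u} [Group Γ] {o : ∀ i, G i →* Γ}

/-- Virtual retracts of a factor that are infinite virtually cyclic are virtual retracts of the
amalgam. -/
theorem vr_amalgam (hΓ : Amalg φ o) (c : H)
    (hinf : ∀ n : ℤ, c ^ n = 1 → n = 0) (hc : (Subgroup.zpowers c).FiniteIndex)
    (hφ : ∀ i, VR (φ i)) (i0 : ι) {H' : Type u} [Group H'] (ψ : H' →* G i0) (c' : H')
    (hinf' : ∀ n : ℤ, c' ^ n = 1 → n = 0) (hc' : (Subgroup.zpowers c').FiniteIndex)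
    (hψ : VR ψ) : VR ((o i0).comp ψ) := by
  classical
  choose K hK hφK r hr using hφ
  have h1 := fun i => retract_hom (φ i) c hinf hc (K i) (hK i) (hφK i) (r i) (hr i)
  choose K' hK' hK'c hcK' f hf hfc using h1
  obtain ⟨K1, hK1, hψK1, r1, hr1⟩ := hψ
  obtain ⟨K2, hK2, hK2c, hcK2, g, hg, hgc⟩ := retract_hom ψ c' hinf' hc' K1 hK1 hψK1 r1 hr1
  let L : ∀ i, Subgroup (G i) := Function.update (fun i => ⊤) i0 K2
  have hL0 : L i0 = K2 := Function.update_self ..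
  have hL : ∀ i, (L i).FiniteIndex := by
    intro i
    by_cases hi : i = i0
    · subst hi
      rw [hL0]
      exact hK2
    · have : L i = ⊤ := Function.update_of_ne hi ..
      rw [this]
      infer_instance
  obtain ⟨A, hA, hAf, hAK, hAL, H0, c0, hH0, hc0, hinf0, hfc0⟩ := match_traces (φ := φ) c hinf
    K' hK' hK'c hcK' f hf (fun i => by rw [hfc]; exact one_ne_zero) L hL
  have hc0H : c0 ∈ H0 := (hc0 c0).mpr ⟨1, (zpow_one c0).symm⟩
  have hc0A : ∀ i, φ i c0 ∈ A i := fun i => (hH0 i c0).mpr hc0H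
  -- a power of the element `c'`
  obtain ⟨m, hm0, _, hm⟩ := Subgroup.exists_pow_mem_of_index_ne_zero
    (hAf i0).index_ne_zero (ψ c')
  have hAK2 : A i0 ≤ K2 := by
    have := hAL i0
    rwa [hL0] at this
  have hmA : ψ (c' ^ (m : ℤ)) ∈ A i0 := by
    rw [zpow_natCast, map_pow]
    exact hm
  have hgm : g (ψ (c' ^ (m : ℤ))) ≠ 0 := by
    rw [map_zpow, hg.zpow hcK2, hgc, mul_one]
    exact_mod_cast hm0.ne'
  let d : ∀ i, G i := Function.update (fun i => φ i c0) i0 (ψ (c' ^ (m : ℤ)))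
  have hd0 : d i0 = ψ (c' ^ (m : ℤ)) := Function.update_self ..
  have hd1 : ∀ i, i ≠ i0 → d i = φ i c0 := fun i hi => Function.update_of_ne hi ..
  have hdg : ∀ i, d i ∈ A i ∧ ∃ g' : G i → ℤ, HomOn (A i) g' ∧ g' (d i) ≠ 0 := by
    intro i
    by_cases hi : i = i0
    · subst hi
      rw [hd0]
      exact ⟨hmA, g, hg.mono hAK2, hgm⟩
    · rw [hd1 i hi]
      exact ⟨hc0A i, f i, (hf i).mono (hAK i), hfc0 i⟩
  have h2 : ∀ i, ∃ f' : G i → ℤ, HomOn (A i) f' ∧
      (∀ p, f' (p⁻¹ * φ i c0 * p) ≠ 0) ∧ (∀ p, f' (p⁻¹ * d i * p) ≠ 0) := by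
    intro i
    have hAi := hA i
    obtain ⟨g1, hg1, hg10⟩ := generic (hAf i) ((hf i).mono (hAK i)) (hc0A i) (hfc0 i)
    obtain ⟨hdA, g', hg', hg'0⟩ := hdg i
    obtain ⟨g2, hg2, hg20⟩ := generic (hAf i) hg' hdA hg'0
    obtain ⟨N0, hN0⟩ := avoid (conj_finite (hAf i) hg1 hg2 (hc0A i))
    obtain ⟨N1, hN1⟩ := avoid (conj_finite (hAf i) hg1 hg2 hdA)
    refine ⟨fun x => g1 x + max N0 N1 * g2 x, hg1.lin hg2 _, fun p => ?_, fun p => ?_⟩
    · refine hN0 _ (le_max_left _ _) (g1 (p⁻¹ * φ i c0 * p), g2 (p⁻¹ * φ i c0 * p)) ⟨p, rfl⟩ ?_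
      intro h0
      exact hg10 p (congrArg Prod.fst h0)
    · refine hN1 _ (le_max_right _ _) (g1 (p⁻¹ * d i * p), g2 (p⁻¹ * d i * p)) ⟨p, rfl⟩ ?_
      intro h0
      exact hg20 p (congrArg Prod.snd h0)
  choose f' hf' hne hne' using h2
  obtain ⟨Ω, hΩ, ⟨ω0⟩, ρ, hρ⟩ := free_cocycle hΓ A hA hAf H0 hH0 c0 hc0 f' hf' hne i0
  have hmem : ∀ x : Γ, x ∈ (Wr.perm.comp ρ).ker ↔ ∀ ω, (ρ x).s ω = ω := by
    intro x
    constructor
    · intro hx ω
      have h4 : (ρ x).s = 1 := hx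
      rw [h4]
      rfl
    · intro hx
      have h4 : (ρ x).s = 1 := Equiv.ext hx
      exact h4
  refine vr_criterion ((o i0).comp ψ) c' hinf' (Wr.perm.comp ρ).ker inferInstance inferInstance
    ?_ (fun γ => (ρ γ).t ω0) ?_ m ?_ ?_
  · intro h hh
    have h3 := (hmem _).mp hh ω0
    have h4 : ψ h ∈ A i0 := ((hρ i0 ω0).1 (ψ h)).mp h3
    exact hK2c h (hAK2 h4)
  · intro a ha b hb
    have h3 := (hmem _).mp hb ω0
    show (ρ (a * b)).t ω0 = _
    rw [rho_t, h3]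
  · rw [hmem]
    intro ω
    exact ((hρ i0 ω).1 _).mpr hmA
  · obtain ⟨p, μ, hμ, hp⟩ := (hρ i0 ω0).2
    show (ρ (o i0 (ψ (c' ^ (m : ℤ))))).t ω0 ≠ 0
    rw [hp _ hmA]
    have h3 := hne' i0 p
    rw [hd0] at h3
    exact mul_ne_zero hμ h3

end Pool.Agent.H802.TVF
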